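import Pool.Agent.Lib.MP_4a944d_co.Main

set_option autoImplicit false

namespace Pool.Agent.Results.MP_4a944d_co.ForestHandicap

open Pool.Agent.Lib.MP_4a944d_co

/-- For every `q ≥ 1` there are `t` and `n₀` such that for all `n ≥ n₀` First Player has a strategy
in the edge-claiming game on `K_n` that completes a `K_q` within `t` moves, and before that moment
the graph `G` of Second Player always becomes `K_q`-free after the edges of some forest are deleted,
so that in particular it contains no `K_{2q-1}`. -/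
theorem result :
    ∀ q : ℕ, 0 < q → ∃ t n₀ : ℕ, ∀ n : ℕ, n₀ ≤ n →
      ∃ σ : (i : ℕ) → (Fin i → Fin n × Fin n) → Fin n × Fin n,
        ∀ b : ℕ → Fin n × Fin n,
          (∀ i < t, (b i).1 < (b i).2 ∧
              (∀ j ≤ i, b i ≠ σ j (fun l : Fin j => b l.val)) ∧
              (∀ j < i, b i ≠ b j)) →
          ∃ k < t,
            (∀ i ≤ k, (σ i (fun l : Fin i => b l.val)).1 < (σ i (fun l : Fin i => b l.val)).2 ∧
                (∀ j < i, σ i (fun l : Fin i => b l.val) ≠ σ j (fun l : Fin j => b l.val)) ∧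
                (∀ j < i, σ i (fun l : Fin i => b l.val) ≠ b j)) ∧
            (∃ S : Finset (Fin n), S.card = q ∧
                ∀ x ∈ S, ∀ y ∈ S, x < y →
                  ∃ i ≤ k, σ i (fun l : Fin i => b l.val) = (x, y)) ∧
            ∀ j < k, ∀ G : SimpleGraph (Fin n),
              G = SimpleGraph.fromRel (fun x y => ∃ i ≤ j, b i = (x, y)) →
                (∃ T : SimpleGraph (Fin n), T.IsAcyclic ∧ (G \ T).CliqueFree q) ∧
                  G.CliqueFree (2 * q - 1) := by
  intro q hq
  obtain ⟨t, n₀, h⟩ := win_start q hq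
  refine ⟨t, n₀, fun n hn => ?_⟩
  obtain ⟨σ, hσ⟩ := strategy (h n hn)
  refine ⟨σ, fun b hb => ?_⟩
  obtain ⟨k, hk, hleg, hA, hB⟩ := hσ b hb
  refine ⟨k, hk, hleg, ?_, ?_⟩
  · simp only [TA, SimpleGraph.CliqueFree, not_forall, not_not] at hA
    obtain ⟨Q, hQ⟩ := hA
    refine ⟨Q, hQ.card_eq, fun x hx y hy hxy => ?_⟩
    rcases (gr_adj.1 (hQ.isClique hx hy hxy.ne)).2 with h1 | h1
    · obtain ⟨i, hi, h1⟩ := Finset.mem_image.1 h1
      exact ⟨i, Nat.lt_succ_iff.1 (Finset.mem_range.1 hi), h1⟩
    · obtain ⟨i, hi, h1⟩ := Finset.mem_image.1 h1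
      have := (hleg i (Nat.lt_succ_iff.1 (Finset.mem_range.1 hi))).1
      rw [h1] at this
      exact absurd hxy (not_lt.2 (le_of_lt this))
  · intro j hj G hG
    have hG' : G = gr ((Finset.range (j + 1)).image b) := by
      rw [hG, gr]
      congr 1
      ext x y
      simp
    have h1 := hB j hj
    simp only [TB, not_forall, not_not] at h1
    obtain ⟨T, hT, h1⟩ := h1
    rw [← hG'] at h1
    exact ⟨⟨T, hT, h1⟩, cliqueFree_of_forest hq hT h1⟩

end Pool.Agent.Results.MP_4a944d_co.ForestHandicap
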