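import Pool.Agent.Lib.MP_4a944d_co.Main
import Pool.Agent.Lib.MP_4a944d_co.NLog

set_option autoImplicit false

namespace Pool.Agent.Results.MP_4a944d_co.LogHandicap

open Pool.Agent.Lib.MP_4a944d_co

/-- For all large `q` there are `t ≤ q ^ 27 * 2 ^ (2 q / 3)` and `n₀` such that for all `n ≥ n₀`
First Player has a strategy in the edge-claiming game on `K_n` that completes a `K_q` within `t`
moves, before Second Player owns a clique on at least `q + 300 log q` vertices. -/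
theorem result :
    ∃ q₀ : ℕ, ∀ q : ℕ, q₀ ≤ q →
      ∃ t n₀ : ℕ, (t : ℝ) ≤ q ^ 27 * 2 ^ (2 / 3 * q : ℝ) ∧ ∀ n : ℕ, n₀ ≤ n →
      ∃ σ : (i : ℕ) → (Fin i → Fin n × Fin n) → Fin n × Fin n,
        ∀ b : ℕ → Fin n × Fin n,
          (∀ i < t, (b i).1 < (b i).2 ∧
              (∀ j ≤ i, b i ≠ σ j (fun l : Fin j => b l.val)) ∧
              (∀ j < i, b i ≠ b j)) →
          ∃ k < t,
            (∀ i ≤ k, (σ i (fun l : Fin i => b l.val)).1 < (σ i (fun l : Fin i => b l.val)).2 ∧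
                (∀ j < i, σ i (fun l : Fin i => b l.val) ≠ σ j (fun l : Fin j => b l.val)) ∧
                (∀ j < i, σ i (fun l : Fin i => b l.val) ≠ b j)) ∧
            (∃ S : Finset (Fin n), S.card = q ∧
                ∀ x ∈ S, ∀ y ∈ S, x < y →
                  ∃ i ≤ k, σ i (fun l : Fin i => b l.val) = (x, y)) ∧
            ¬ ∃ j < k, ∃ S : Finset (Fin n), q + 300 * Real.log q ≤ S.card ∧
                ∀ x ∈ S, ∀ y ∈ S, x < y → ∃ i ≤ j, b i = (x, y) := by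
  obtain ⟨q₀, h⟩ := Filter.eventually_atTop.1 Hc.win_log
  refine ⟨q₀, fun q hq => ?_⟩
  obtain ⟨t, n₀, ht, h⟩ := h q hq
  refine ⟨t, n₀, ht, fun n hn => ?_⟩
  obtain ⟨σ, hσ⟩ := strategy (h n hn)
  refine ⟨σ, fun b hb => ?_⟩
  obtain ⟨k, hk, hleg, ⟨Q, q1, q2⟩, hB⟩ := hσ b hb
  refine ⟨k, hk, hleg, ⟨Q, q1, fun x hx y hy l => ?_⟩, fun ⟨j, hj, S, s1, s2⟩ =>
    hB j hj ⟨S, s1, fun x hx y hy l => ?_⟩⟩
  · obtain ⟨i, hi, e⟩ := Finset.mem_image.1 (q2 x hx y hy l)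
    exact ⟨i, Nat.lt_succ_iff.1 (Finset.mem_range.1 hi), e⟩
  · obtain ⟨i, hi, e⟩ := s2 x hx y hy l
    exact Finset.mem_image.2 ⟨i, Finset.mem_range.2 (Nat.lt_succ_iff.2 hi), e⟩

end Pool.Agent.Results.MP_4a944d_co.LogHandicap
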