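import Pool.Agent.Lib.MP_4a944d_co.DWMain

set_option autoImplicit false

namespace Pool.Agent.Results.MP_4a944d_co.SlowDoubleWheel

open Pool.Agent.Lib.MP_4a944d_co.DW

/-- For every finite graph `F` and all large `m`, in the strong game on `K_n` whose target is the
join of an edge with the disjoint union of `F` and the cycle `C_m`, First Player cannot win within
`n / 4` moves. -/
theorem result (r : ℕ) (F : SimpleGraph (Fin r)) : ∃ m₀ : ℕ, ∀ m : ℕ, m₀ ≤ m →
    ∀ n t : ℕ, 4 * t ≤ n →
      ¬ WinsWithin (join (⊤ : SimpleGraph (Fin 2)) (F.sum (SimpleGraph.cycleGraph m))) n t :=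
  slow F

end Pool.Agent.Results.MP_4a944d_co.SlowDoubleWheel
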